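import Mathlib
import Pool.Agent.Q137.NF.Defs
import Pool.Agent.Q137.NF.Main

set_option autoImplicit false

/-!
# The NF-number of the dumbbell graphs

`Q137.NF.graphComplex (Q137.NF.dumbbell n m)` is the dumbbell graph `B_{n,m}` as a simplicial
complex on the vertex set `Fin n ⊕ Fin m`, `Q137.NF.delta` is the operator `δ` and
`Q137.NF.NFnumber` is the NF-number.
-/

namespace Pool.Agent.Results.MP_0a7d83_co.Dumbbell

open Q137.NF

/-- For all `n, m ≥ 2` with `(n, m) ≠ (2, 2)` the NF-number of the dumbbell graph `B_{n,m}` is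
`n + m + 2`. -/
theorem result : ∀ n m : ℕ, 2 ≤ n → 2 ≤ m → (n, m) ≠ (2, 2) →
    NFnumber (graphComplex (dumbbell n m)) = n + m + 2 := by
  intro n m hn hm h
  apply NFnumber_dumbbell hn hm
  rintro ⟨rfl, rfl⟩
  exact h rfl

end Pool.Agent.Results.MP_0a7d83_co.Dumbbell
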